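import Pool.Agent.Lib.MP_2c70cf_lc.TypeNames
import Pool.Agent.Lib.MP_2c70cf_lc.Model

set_option autoImplicit false

namespace Pool.Agent.Results.MP_2c70cf_lc.EveryModel

open Pool.Agent.Lib.MP_2c70cf_lc

/-- Countable transitive models of ZF without Power Set exist, and over each of them (with or
without Collection) Friedman's forcing fails the truth lemma, already for the atomic formula
`v₀ = v₁`. -/
theorem result : ∃ ev : Set ZFSet.{0} → ZFSet.{0} → ZFSet.{0}, IsEval ev ∧
    (∃ M : ZFSet.{0}, (M : Set ZFSet.{0}).Countable ∧ M.IsTransitive ∧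
      ModelsZFminus (M : Set ZFSet.{0}) ∧ ModelsZFrepl (M : Set ZFSet.{0})) ∧
    ∀ M : ZFSet.{0}, (M : Set ZFSet.{0}).Countable → M.IsTransitive →
      ModelsZFrepl (M : Set ZFSet.{0}) → ¬ TruthLemma ev (M : Set ZFSet.{0}) (Fml.eq 0 1) := by
  obtain ⟨ev, hev⟩ := exists_eval
  refine ⟨ev, hev, ?_, fun M hc hT hM =>
    fails_everywhere hev hc (fun x hx y hy => hT x hx hy) hM⟩
  obtain ⟨M, -, hc, hT, hM, -⟩ := exists_model ∅ Set.countable_empty fun _ h => h.elim
  have := hc.to_subtype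
  have e : ((ZFSet.range fun x : M => x.1 : ZFSet.{0}) : Set ZFSet.{0}) = M := by
    rw [ZFSet.coe_range, Subtype.range_coe]
  refine ⟨ZFSet.range fun x : M => x.1, by rwa [e], ?_, by rwa [e], ?_⟩
  · rw [← e] at hT
    exact fun x hx y hy => hT x hx y hy
  · rw [e]
    exact ⟨hM.1, hM.2, hM.3, hM.4, hM.5, hM.6, hM.7⟩

end Pool.Agent.Results.MP_2c70cf_lc.EveryModel
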